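import Pool.Agent.Lib.MP_0a5adf_nt.H57.Thin

/-!
Maximum excursions and parity words (helper57), from the thinness of trajectories.
-/

set_option autoImplicit false

namespace Pool.Agent.Lib.MP_0a5adf_nt.H57.Par

open Finset Pool.Agent.Lib.MP_0a5adf_nt
open scoped ENNReal

/-- The accelerated 3x+1 map. -/
def T (n : ℕ) : ℕ := if n % 2 = 0 then n / 2 else (3 * n + 1) / 2

/-- The number of odd terms among `n, T n, ..., T^(j-1) n`. -/
def o (n j : ℕ) : ℕ := ((range j).filter fun i => T^[i] n % 2 = 1).card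

theorem T_cast (n : ℕ) : EXP.T (n : ℤ) = (T n : ℤ) := by
  unfold EXP.T T
  split_ifs <;> omega

theorem iter_cast (n i : ℕ) : EXP.T^[i] (n : ℤ) = (T^[i] n : ℤ) := by
  induction i with
  | zero => rfl
  | succ i ih => rw [Function.iterate_succ_apply', Function.iterate_succ_apply', ih, T_cast]

theorem T_pos {n : ℕ} (h : 1 ≤ n) : 1 ≤ T n := by
  unfold T
  split_ifs <;> omega

theorem iter_pos {n : ℕ} (h : 1 ≤ n) (i : ℕ) : 1 ≤ T^[i] n := by
  induction i with
  | zero => exact h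
  | succ i ih => rw [Function.iterate_succ_apply']; exact T_pos ih

theorem o_succ (n j : ℕ) : o n (j + 1) = o n j + if T^[j] n % 2 = 1 then 1 else 0 := by
  unfold o
  rw [range_add_one, filter_insert]
  split_ifs with h
  · rw [card_insert_of_notMem (by simp)]
  · rfl

/-- the easy half: each term is at least the value predicted by the parity word -/
theorem low (n j : ℕ) : 3 ^ o n j * n ≤ 2 ^ j * T^[j] n := by
  induction j with
  | zero => simp [o]
  | succ j ih =>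
    rw [o_succ, Function.iterate_succ_apply']
    set y := T^[j] n with hy
    split_ifs with h
    · have h1 : 2 * T y = 3 * y + 1 := by unfold T; split_ifs <;> omega
      calc 3 ^ (o n j + 1) * n = 3 * (3 ^ o n j * n) := by ring
        _ ≤ 3 * (2 ^ j * y) := by omega
        _ ≤ 2 ^ j * (2 * T y) := by rw [h1]; nlinarith [Nat.one_le_two_pow (n := j)]
        _ = 2 ^ (j + 1) * T y := by ring
    · have h1 : 2 * T y = y := by unfold T; split_ifs <;> omega
      calc 3 ^ (o n j + 0) * n = 3 ^ o n j * n := by ring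
        _ ≤ 2 ^ j * y := ih
        _ = 2 ^ j * (2 * T y) := by rw [h1]
        _ = 2 ^ (j + 1) * T y := by ring

/-- a term first occurs without an earlier repetition -/
theorem first (n j : ℕ) : ∃ i ≤ j, T^[i] n = T^[j] n ∧
    ∀ a b, a < b → b < i + 1 → T^[a] n ≠ T^[b] n := by
  classical
  have hex : ∃ i, T^[i] n = T^[j] n := ⟨j, rfl⟩
  refine ⟨Nat.find hex, Nat.find_min' hex rfl, Nat.find_spec hex, ?_⟩
  set i := Nat.find hex with hi
  intro a b hab hb heq
  have h1 : T^[i] n = T^[j] n := Nat.find_spec hex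
  have h2 : T^[i - (b - a)] n = T^[i] n := by
    obtain ⟨r, hr⟩ : ∃ r, i = r + b := ⟨i - b, by omega⟩
    have e : i - (b - a) = r + a := by omega
    rw [e, hr, Function.iterate_add_apply, Function.iterate_add_apply, heq]
  have h3 := Nat.find_min hex (m := i - (b - a)) (by omega)
  exact h3 (h2.trans h1)

/-! ## the product formula -/

/-- the correction factor of the first `j` steps -/
noncomputable def P (n j : ℕ) : ℝ :=
  ∏ i ∈ range j, (if T^[i] n % 2 = 1 then 1 + 1 / (3 * (T^[i] n : ℝ)) else 1)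

theorem prod_formula (n j : ℕ) (hn : 1 ≤ n) :
    (2 : ℝ) ^ j * (T^[j] n : ℝ) = 3 ^ o n j * n * P n j := by
  induction j with
  | zero => simp [o, P]
  | succ j ih =>
    rw [o_succ, Function.iterate_succ_apply', P, prod_range_succ, ← P]
    have hpos : (0 : ℝ) < (T^[j] n : ℝ) := by exact_mod_cast iter_pos hn j
    set y := T^[j] n with hy
    split_ifs with h
    · have h1 : (2 : ℝ) * (T y : ℝ) = 3 * y + 1 := by
        have : 2 * T y = 3 * y + 1 := by unfold T; split_ifs <;> omega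
        exact_mod_cast this
      have h2 : (3 : ℝ) * y * (1 + 1 / (3 * (y : ℝ))) = 3 * y + 1 := by field_simp
      calc (2 : ℝ) ^ (j + 1) * (T y : ℝ) = 2 ^ j * (2 * (T y : ℝ)) := by ring
        _ = 2 ^ j * (y : ℝ) * 3 * (1 + 1 / (3 * (y : ℝ))) := by rw [h1, ← h2]; ring
        _ = 3 ^ (o n j + 1) * n * (P n j * (1 + 1 / (3 * (y : ℝ)))) := by rw [ih]; ring
    · have h1 : (2 : ℝ) * (T y : ℝ) = y := by
        have : 2 * T y = y := by unfold T; split_ifs <;> omega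
        exact_mod_cast this
      calc (2 : ℝ) ^ (j + 1) * (T y : ℝ) = 2 ^ j * (2 * (T y : ℝ)) := by ring
        _ = 2 ^ j * (y : ℝ) := by rw [h1]
        _ = 3 ^ (o n j + 0) * n * (P n j * 1) := by rw [ih]; ring

theorem P_le (n j : ℕ) (hn : 1 ≤ n) :
    P n j ≤ Real.exp (∑ i ∈ range j, 1 / (T^[i] n : ℝ)) := by
  unfold P
  rw [Real.exp_sum]
  apply Finset.prod_le_prod
  · intro i _
    split_ifs <;> positivity
  · intro i _
    have hpos : (0 : ℝ) < (T^[i] n : ℝ) := by exact_mod_cast iter_pos hn i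
    have h1 : (1 : ℝ) / (3 * (T^[i] n : ℝ)) ≤ 1 / (T^[i] n : ℝ) :=
      one_div_le_one_div_of_le hpos (by linarith)
    have h2 := Real.add_one_le_exp (1 / (T^[i] n : ℝ))
    have h3 : 0 < 1 / (T^[i] n : ℝ) := by positivity
    split_ifs <;> linarith

/-- the main half, with an error that depends on the least term only -/
theorem upm : ∃ C : ℝ, 0 < C ∧ ∀ (n j : ℕ) (m : ℝ), 1 ≤ n → 1 ≤ m →
    (∀ a b, a < b → b < j → T^[a] n ≠ T^[b] n) → (∀ i < j, m ≤ (T^[i] n : ℝ)) →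
    (2 : ℝ) ^ j * (T^[j] n : ℝ) ≤ (1 + C * m ^ (-0.0596 : ℝ)) * (3 ^ o n j * n) := by
  obtain ⟨M, hM, H⟩ := Count.recips
  refine ⟨M * Real.exp M, by positivity, fun n j m hn hm hinj hlow => ?_⟩
  have h1 := H (n : ℤ) j (fun a b hab hb => by
    rw [iter_cast, iter_cast]
    exact_mod_cast hinj a b hab hb) m hm (fun i hi => by
    rw [iter_cast]
    simpa using hlow i hi)
  have h2 : ∑ i ∈ range j, 1 / |((EXP.T^[i] (n : ℤ) : ℤ) : ℝ)| =
      ∑ i ∈ range j, 1 / (T^[i] n : ℝ) := by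
    apply Finset.sum_congr rfl
    intro i _
    rw [iter_cast]
    simp
  rw [h2] at h1
  set δ : ℝ := m ^ (-0.0596 : ℝ) with hδ
  have hδ0 : 0 < δ := Real.rpow_pos_of_pos (by linarith) _
  have hδ1 : δ ≤ 1 := Real.rpow_le_one_of_one_le_of_nonpos hm (by norm_num)
  have h3 : P n j ≤ 1 + M * Real.exp M * δ := by
    refine (P_le n j hn).trans ((Real.exp_le_exp.2 h1).trans ?_)
    have h4 : Real.exp (M * δ) ≤ 1 + (M * δ) * Real.exp (M * δ) := by
      have h5 := Real.one_sub_le_exp_neg (M * δ)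
      have h6 : Real.exp (-(M * δ)) * Real.exp (M * δ) = 1 := by
        rw [← Real.exp_add, neg_add_cancel, Real.exp_zero]
      have h7 := Real.exp_pos (M * δ)
      nlinarith
    have h8 : Real.exp (M * δ) ≤ Real.exp M := Real.exp_le_exp.2 (by nlinarith)
    have h9 : (M * δ) * Real.exp (M * δ) ≤ (M * δ) * Real.exp M :=
      mul_le_mul_of_nonneg_left h8 (by positivity)
    linarith
  rw [prod_formula n j hn]
  have h10 : (0 : ℝ) ≤ 3 ^ o n j * n := by positivity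
  nlinarith

/-- the main half for every term -/
theorem up_all : ∃ C : ℝ, 0 < C ∧ ∀ n j : ℕ, 1 ≤ n →
    ∃ i ≤ j, (2 : ℝ) ^ i * (T^[j] n : ℝ) ≤ C * (3 ^ o n i * n) := by
  obtain ⟨C, hC, H⟩ := upm
  refine ⟨1 + C, by linarith, fun n j hn => ?_⟩
  obtain ⟨i, hij, h1, h2⟩ := first n j
  refine ⟨i, hij, ?_⟩
  rw [← h1]
  have h3 := H n i 1 hn le_rfl (fun a b hab hb => h2 a b hab (by omega))
    (fun i _ => by exact_mod_cast iter_pos hn i)
  rwa [Real.one_rpow, mul_one] at h3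

/-- The maximum excursion of `n`. -/
noncomputable def t (n : ℕ) : ℝ≥0∞ := ⨆ k : ℕ, (T^[k] n : ℝ≥0∞)

/-- The excursion predicted by the parity word of the trajectory. -/
noncomputable def e (n : ℕ) : ℝ≥0∞ := ⨆ j : ℕ, (n : ℝ≥0∞) * 3 ^ o n j / 2 ^ j

theorem low_real (n j : ℕ) : (3 : ℝ) ^ o n j * n ≤ 2 ^ j * (T^[j] n : ℝ) := by
  exact_mod_cast low n j

theorem e_le_t (n : ℕ) : e n ≤ t n := by
  refine iSup_le fun j => le_trans ?_ (le_iSup (fun k : ℕ => (T^[k] n : ℝ≥0∞)) j)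
  refine ENNReal.div_le_of_le_mul ?_
  have h := low n j
  have h' : ((3 ^ o n j * n : ℕ) : ℝ≥0∞) ≤ ((2 ^ j * T^[j] n : ℕ) : ℝ≥0∞) := by exact_mod_cast h
  push_cast at h'
  rw [mul_comm ((T^[j] n : ℕ) : ℝ≥0∞), mul_comm (n : ℝ≥0∞)]
  exact h'

theorem t_le_e {C : ℝ} (hC : 0 < C) (n : ℕ)
    (h : ∀ j, ∃ i ≤ j, (2 : ℝ) ^ i * (T^[j] n : ℝ) ≤ C * (3 ^ o n i * n)) :
    t n ≤ ENNReal.ofReal C * e n := by
  refine iSup_le fun j => ?_
  obtain ⟨i, -, hi⟩ := h j
  have h1 : (n : ℝ≥0∞) * 3 ^ o n i / 2 ^ i ≤ e n :=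
    le_iSup (fun j : ℕ => (n : ℝ≥0∞) * 3 ^ o n j / 2 ^ j) i
  refine le_trans ?_ (mul_le_mul_right h1 (ENNReal.ofReal C))
  have h2 : (T^[j] n : ℝ) ≤ C * ((n : ℝ) * 3 ^ o n i / 2 ^ i) := by
    rw [mul_div_assoc', le_div_iff₀ (by positivity)]
    calc (T^[j] n : ℝ) * 2 ^ i = 2 ^ i * (T^[j] n : ℝ) := by ring
      _ ≤ C * (3 ^ o n i * n) := hi
      _ = C * ((n : ℝ) * 3 ^ o n i) := by ring
  have h3 := ENNReal.ofReal_le_ofReal h2
  rw [ENNReal.ofReal_mul hC.le, ENNReal.ofReal_natCast, ENNReal.ofReal_div_of_pos (by positivity),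
    ENNReal.ofReal_mul (by positivity), ENNReal.ofReal_natCast, ENNReal.ofReal_pow (by norm_num),
    ENNReal.ofReal_pow (by norm_num), ENNReal.ofReal_ofNat, ENNReal.ofReal_ofNat] at h3
  exact h3

/-- power bounds for the excursions and for the parity words -/
theorem power_iff {C : ℝ} (hC : 0 < C)
    (h : ∀ n j : ℕ, 1 ≤ n → ∃ i ≤ j, (2 : ℝ) ^ i * (T^[j] n : ℝ) ≤ C * (3 ^ o n i * n)) (g : ℝ) :
    (∃ A : ℝ, ∀ n k : ℕ, 1 ≤ n → (T^[k] n : ℝ) ≤ A * (n : ℝ) ^ (1 + g)) ↔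
    ∃ A : ℝ, ∀ n j : ℕ, 1 ≤ n → (3 : ℝ) ^ o n j ≤ A * 2 ^ j * (n : ℝ) ^ g := by
  have hsplit : ∀ n : ℕ, 1 ≤ n → (n : ℝ) ^ (1 + g) = n * (n : ℝ) ^ g := by
    intro n hn
    rw [Real.rpow_add (by exact_mod_cast hn), Real.rpow_one]
  constructor
  · rintro ⟨A, hA⟩
    refine ⟨A, fun n j hn => ?_⟩
    have hn0 : (0 : ℝ) < n := by exact_mod_cast hn
    have h1 := low_real n j
    have h2 := hA n j hn
    rw [hsplit n hn] at h2
    have h3 : (3 : ℝ) ^ o n j * n ≤ (A * 2 ^ j * (n : ℝ) ^ g) * n :=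
      calc (3 : ℝ) ^ o n j * n ≤ 2 ^ j * (T^[j] n : ℝ) := h1
        _ ≤ 2 ^ j * (A * (n * (n : ℝ) ^ g)) := mul_le_mul_of_nonneg_left h2 (by positivity)
        _ = _ := by ring
    exact le_of_mul_le_mul_right h3 hn0
  · rintro ⟨A, hA⟩
    refine ⟨C * A, fun n k hn => ?_⟩
    have hn0 : (0 : ℝ) < n := by exact_mod_cast hn
    obtain ⟨i, -, hi⟩ := h n k hn
    have h2 := hA n i hn
    rw [hsplit n hn]
    have h2i : (0 : ℝ) < 2 ^ i := by positivity
    have h3 : (2 : ℝ) ^ i * (T^[k] n : ℝ) ≤ 2 ^ i * (C * A * (n * (n : ℝ) ^ g)) :=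
      calc (2 : ℝ) ^ i * (T^[k] n : ℝ) ≤ C * (3 ^ o n i * n) := hi
        _ ≤ C * ((A * 2 ^ i * (n : ℝ) ^ g) * n) := by
            refine mul_le_mul_of_nonneg_left (mul_le_mul_of_nonneg_right h2 hn0.le) hC.le
        _ = _ := by ring
    exact le_of_mul_le_mul_left h3 h2i

/-- the trajectory is unbounded iff the coefficients of the parity word are -/
theorem unbounded_iff {C : ℝ} (hC : 0 < C) (n : ℕ) (hn : 1 ≤ n)
    (h : ∀ j : ℕ, ∃ i ≤ j, (2 : ℝ) ^ i * (T^[j] n : ℝ) ≤ C * (3 ^ o n i * n)) :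
    (∃ A : ℝ, ∀ k : ℕ, (T^[k] n : ℝ) ≤ A) ↔ ∃ A : ℝ, ∀ j : ℕ, (3 : ℝ) ^ o n j ≤ A * 2 ^ j := by
  have hn0 : (0 : ℝ) < n := by exact_mod_cast hn
  constructor
  · rintro ⟨A, hA⟩
    refine ⟨A / n, fun j => ?_⟩
    have h1 := low_real n j
    have h2 := hA j
    have h3 : (3 : ℝ) ^ o n j * n ≤ 2 ^ j * A :=
      h1.trans (mul_le_mul_of_nonneg_left h2 (by positivity))
    rw [div_mul_eq_mul_div, le_div_iff₀ hn0]
    linarith
  · rintro ⟨A, hA⟩
    refine ⟨C * (A * n), fun k => ?_⟩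
    obtain ⟨i, -, hi⟩ := h k
    have h2 := hA i
    have h2i : (0 : ℝ) < 2 ^ i := by positivity
    have h3 : (2 : ℝ) ^ i * (T^[k] n : ℝ) ≤ 2 ^ i * (C * (A * n)) :=
      calc (2 : ℝ) ^ i * (T^[k] n : ℝ) ≤ C * (3 ^ o n i * n) := hi
        _ ≤ C * ((A * 2 ^ i) * n) :=
            mul_le_mul_of_nonneg_left (mul_le_mul_of_nonneg_right h2 hn0.le) hC.le
        _ = _ := by ring
    exact le_of_mul_le_mul_left h3 h2i

/-- the maximum excursion is asymptotically equal to the one predicted by the parity word -/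
theorem asym (ε : ℝ) (hε : 0 < ε) : ∃ N : ℕ, ∀ n : ℕ, N ≤ n →
    t n ≤ ENNReal.ofReal (1 + ε) * e n := by
  classical
  obtain ⟨C, hC, H⟩ := upm
  -- `M` with `C * M ^ (-0.0596) ≤ ε`
  obtain ⟨M, hM1, hM⟩ : ∃ M : ℕ, 1 ≤ M ∧ C * (M : ℝ) ^ (-0.0596 : ℝ) ≤ ε := by
    have h1 : Filter.Tendsto (fun M : ℕ => C * (M : ℝ) ^ (-0.0596 : ℝ)) Filter.atTop
        (nhds (C * 0)) := by
      apply Filter.Tendsto.const_mul
      exact (tendsto_rpow_neg_atTop (by norm_num : (0 : ℝ) < 0.0596)).comp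
        tendsto_natCast_atTop_atTop
    rw [mul_zero] at h1
    have h2 := ((h1.eventually (ge_mem_nhds hε)).and (Filter.eventually_ge_atTop 1)).exists
    obtain ⟨M, h3, h4⟩ := h2
    exact ⟨M, h4, h3⟩
  -- a bound for the bounded trajectories that start below `M`
  obtain ⟨B, hB⟩ : ∃ B : ℕ, ∀ m < M, t m ≠ ∞ → ∀ k, T^[k] m ≤ B := by
    have h1 : ∀ m : ℕ, ∃ B : ℕ, t m ≠ ∞ → ∀ k, T^[k] m ≤ B := by
      intro m
      by_cases hm : t m = ∞
      · exact ⟨0, fun h => absurd hm h⟩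
      · refine ⟨⌊(t m).toReal⌋₊, fun _ k => ?_⟩
        apply Nat.le_floor
        have h2 : ((T^[k] m : ℕ) : ℝ≥0∞) ≤ t m := le_iSup (fun k : ℕ => (T^[k] m : ℝ≥0∞)) k
        have h3 := ENNReal.toReal_mono hm h2
        rwa [ENNReal.toReal_natCast] at h3
    choose B hB using h1
    refine ⟨(range M).sup B, fun m hm hfin k => (hB m hfin k).trans ?_⟩
    exact Finset.le_sup (mem_range.2 hm)
  refine ⟨B + 1, fun n hn => ?_⟩
  have hn1 : 1 ≤ n := by omega
  by_cases ht : t n = ∞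
  · -- both are infinite
    obtain ⟨C', hC', H'⟩ := up_all
    have h1 := t_le_e hC' n fun j => H' n j hn1
    rw [ht, top_le_iff, ENNReal.mul_eq_top] at h1
    have h2 : e n = ∞ := by
      rcases h1 with h1 | h1
      · exact h1.2
      · exact absurd h1.1 ENNReal.ofReal_ne_top
    rw [h2, ENNReal.mul_top]
    · exact le_top
    · rw [Ne, ENNReal.ofReal_eq_zero]
      linarith
  · apply t_le_e (by linarith)
    intro j
    obtain ⟨i, hij, h1, h2⟩ := first n j
    by_cases hle : T^[j] n ≤ n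
    · refine ⟨0, Nat.zero_le _, ?_⟩
      have h3 : (T^[j] n : ℝ) ≤ n := by exact_mod_cast hle
      have h4 : (0 : ℝ) ≤ n := Nat.cast_nonneg _
      simp only [pow_zero, one_mul, o, range_zero, filter_empty, card_empty]
      nlinarith
    · refine ⟨i, hij, ?_⟩
      rw [← h1]
      have h3 : ∀ a < i, (M : ℝ) ≤ (T^[a] n : ℝ) := by
        intro a ha
        by_contra hc
        push Not at hc
        have hc' : T^[a] n < M := by exact_mod_cast hc
        have hfin : t (T^[a] n) ≠ ∞ := by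
          intro h4
          apply ht
          rw [← top_le_iff, ← h4]
          refine iSup_le fun k => ?_
          rw [← Function.iterate_add_apply]
          exact le_iSup (fun k : ℕ => (T^[k] n : ℝ≥0∞)) (k + a)
        have h5 := hB _ hc' hfin (j - a)
        rw [← Function.iterate_add_apply, show j - a + a = j by omega] at h5
        omega
      have h4 := H n i M hn1 (by exact_mod_cast hM1) (fun a b hab hb => h2 a b hab (by omega)) h3
      refine h4.trans (mul_le_mul_of_nonneg_right (by linarith) (by positivity))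

/-- the number of distinct terms -/
theorem thinN : ∃ C : ℝ, 0 < C ∧ ∀ (n : ℕ) (X : ℝ), 1 ≤ X →
    ({y : ℕ | (y : ℝ) ≤ X ∧ ∃ i : ℕ, T^[i] n = y}.ncard : ℝ) ≤ C * X ^ (0.9404 : ℝ) := by
  classical
  obtain ⟨M, hM, H⟩ := Count.thin
  refine ⟨M, hM, fun n X hX => ?_⟩
  have hfin : {y : ℕ | (y : ℝ) ≤ X ∧ ∃ i : ℕ, T^[i] n = y}.Finite := by
    refine (Set.finite_Iic ⌊X⌋₊).subset ?_
    rintro y ⟨hy, -⟩
    exact Nat.le_floor hy
  have h1 : ∀ y : ℕ, ∃ i : ℕ, (∃ j : ℕ, T^[j] n = y) → T^[i] n = y ∧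
      ∀ a b, a < b → b < i + 1 → T^[a] n ≠ T^[b] n := by
    intro y
    by_cases h : ∃ j : ℕ, T^[j] n = y
    · obtain ⟨j, hj⟩ := h
      obtain ⟨i, -, h2, h3⟩ := first n j
      exact ⟨i, fun _ => ⟨h2.trans hj, h3⟩⟩
    · exact ⟨0, fun h' => absurd h' h⟩
  choose f hf using h1
  rcases Set.eq_empty_or_nonempty {y : ℕ | (y : ℝ) ≤ X ∧ ∃ i : ℕ, T^[i] n = y} with h0 | h0
  · rw [h0, Set.ncard_empty, Nat.cast_zero]
    exact mul_nonneg hM.le (Real.rpow_nonneg (by linarith) _)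
  · set S := hfin.toFinset with hS
    have hSne : S.Nonempty := by
      rw [hS, Set.Finite.toFinset_nonempty]
      exact h0
    obtain ⟨y₀, hy₀, hsup⟩ := Finset.exists_mem_eq_sup S hSne f
    have hy₀' := (hfin.mem_toFinset.1 hy₀).2
    set J := S.sup f + 1 with hJ
    have hinj : ∀ a b, a < b → b < J → T^[a] n ≠ T^[b] n := by
      rw [hJ, hsup]
      exact (hf y₀ hy₀').2
    have h2 := H (n : ℤ) J (fun a b hab hb => by
      rw [iter_cast, iter_cast]
      exact_mod_cast hinj a b hab hb) X hX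
    refine le_trans ?_ h2
    have h3 : S ⊆ ((range J).filter fun i =>
        |((EXP.T^[i] (n : ℤ) : ℤ) : ℝ)| ≤ X).image fun i => T^[i] n := by
      intro y hy
      have hy' := hfin.mem_toFinset.1 hy
      rw [mem_image]
      refine ⟨f y, ?_, (hf y hy'.2).1⟩
      rw [mem_filter, mem_range]
      refine ⟨Nat.lt_succ_of_le (Finset.le_sup hy), ?_⟩
      rw [iter_cast, (hf y hy'.2).1]
      simpa using hy'.1
    have h4 := (card_le_card h3).trans card_image_le
    rw [Set.ncard_eq_toFinset_card _ hfin]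
    unfold Count.A
    exact Nat.cast_le.2 h4

end Pool.Agent.Lib.MP_0a5adf_nt.H57.Par
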