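import Mathlib

/-!
Distinct terms of one trajectory (helper57): if all but `C X ^ E` of the integers up to `X` fall
below `|x| ^ θ` in `O(log |x|)` steps, then every trajectory has at most `C' X ^ E'` distinct
terms up to `X`.
-/

set_option autoImplicit false

namespace Pool.Agent.Lib.MP_0a5adf_nt.H57.Count

open Finset Filter Topology

/-- the number of terms up to `X` among the first `J` -/
noncomputable def A (T : ℤ → ℤ) (x : ℤ) (J : ℕ) (X : ℝ) : ℕ :=
  ((range J).filter fun i => |((T^[i] x : ℤ) : ℝ)| ≤ X).card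

/-- descent of `x` -/
def Desc (T : ℤ → ℤ) (κ θ : ℝ) (x : ℤ) : Prop :=
  ∃ k : ℕ, (k : ℝ) ≤ κ * Real.log |(x : ℝ)| ∧ |((T^[k] x : ℤ) : ℝ)| < |(x : ℝ)| ^ θ

theorem finite_le (X : ℝ) : {x : ℤ | |(x : ℝ)| ≤ X}.Finite := by
  refine (Set.finite_Icc (-⌊X⌋) ⌊X⌋).subset ?_
  intro x hx
  have h := abs_le.1 (show |(x : ℝ)| ≤ X from hx)
  constructor
  · have : -x ≤ ⌊X⌋ := Int.le_floor.2 (by push_cast; linarith [h.1])
    linarith
  · exact Int.le_floor.2 h.2

theorem card_le_real {X : ℝ} (hX : 1 ≤ X) : ({x : ℤ | |(x : ℝ)| ≤ X}.ncard : ℝ) ≤ 3 * X := by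
  have h1 : {x : ℤ | |(x : ℝ)| ≤ X} ⊆ (Finset.Icc (-⌊X⌋) ⌊X⌋ : Finset ℤ) := by
    intro x hx
    have h := abs_le.1 (show |(x : ℝ)| ≤ X from hx)
    rw [Finset.coe_Icc]
    constructor
    · have : -x ≤ ⌊X⌋ := Int.le_floor.2 (by push_cast; linarith [h.1])
      linarith
    · exact Int.le_floor.2 h.2
  have h2 := Set.ncard_le_ncard h1 (Finset.finite_toSet _)
  rw [Set.ncard_coe_finset, Int.card_Icc] at h2
  have h3 : (0 : ℤ) ≤ ⌊X⌋ := Int.floor_nonneg.2 (by linarith)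
  have h4 : ((⌊X⌋ + 1 - -⌊X⌋).toNat : ℝ) = 2 * (⌊X⌋ : ℝ) + 1 := by
    have h5 : ((⌊X⌋ + 1 - -⌊X⌋).toNat : ℤ) = 2 * ⌊X⌋ + 1 := by
      rw [Int.toNat_of_nonneg (by omega)]
      ring
    have h6 : (((⌊X⌋ + 1 - -⌊X⌋).toNat : ℤ) : ℝ) = ((2 * ⌊X⌋ + 1 : ℤ) : ℝ) := by rw [h5]
    rw [Int.cast_natCast] at h6
    rw [h6]
    push_cast
    ring
  have h5 : ((({x : ℤ | |(x : ℝ)| ≤ X}.ncard : ℕ)) : ℝ) ≤ 2 * (⌊X⌋ : ℝ) + 1 := by
    rw [← h4]
    exact_mod_cast h2
  have h6 := Int.floor_le X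
  linarith

section

variable {T : ℤ → ℤ} {x : ℤ} {J : ℕ}

/-- a filter of indices is at most as large as the set of the values -/
theorem card_filter_le (hinj : ∀ a b, a < b → b < J → T^[a] x ≠ T^[b] x) (P : ℤ → Prop)
    [DecidablePred fun i : ℕ => P (T^[i] x)] (hP : {y : ℤ | P y}.Finite) :
    ((range J).filter fun i => P (T^[i] x)).card ≤ {y : ℤ | P y}.ncard := by
  classical
  have h1 : Set.InjOn (fun i => T^[i] x)
      (((range J).filter fun i => P (T^[i] x) : Finset ℕ) : Set ℕ) := by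
    intro a ha b hb hab
    rw [mem_coe, mem_filter, mem_range] at ha hb
    rcases lt_trichotomy a b with h | h | h
    · exact absurd hab (hinj a b h hb.1)
    · exact h
    · exact absurd hab.symm (hinj b a h ha.1)
  rw [← Finset.card_image_of_injOn h1, ← Set.ncard_coe_finset]
  apply Set.ncard_le_ncard _ hP
  intro y hy
  rw [mem_coe, mem_image] at hy
  obtain ⟨i, hi, rfl⟩ := hy
  exact (mem_filter.1 hi).2

theorem A_le (hinj : ∀ a b, a < b → b < J → T^[a] x ≠ T^[b] x) {X : ℝ} (hX : 1 ≤ X) :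
    (A T x J X : ℝ) ≤ 3 * X := by
  classical
  refine le_trans ?_ (card_le_real hX)
  have h := card_filter_le hinj (fun y : ℤ => |(y : ℝ)| ≤ X) (finite_le X)
  unfold A
  exact_mod_cast h

theorem A_le_J (X : ℝ) : A T x J X ≤ J := by
  unfold A
  exact (Finset.card_filter_le _ _).trans (le_of_eq (card_range J))

/-- one step of the recursion -/
theorem A_step {κ θ : ℝ} (hκ : 0 ≤ κ) (hθ : 0 < θ)
    (hinj : ∀ a b, a < b → b < J → T^[a] x ≠ T^[b] x) {X B : ℝ} (hX : 1 ≤ X)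
    (hB : ({y : ℤ | |(y : ℝ)| ≤ X ∧ ¬ Desc T κ θ y}.ncard : ℝ) ≤ B) :
    (A T x J X : ℝ) ≤ B + (κ * Real.log X + 1) * ((A T x J (X ^ θ) : ℝ) + 1) := by
  classical
  set q : ℕ := ⌊κ * Real.log X⌋₊ with hq
  have hlog : 0 ≤ Real.log X := Real.log_nonneg hX
  have hq1 : ((q + 1 : ℕ) : ℝ) ≤ κ * Real.log X + 1 := by
    push_cast
    have := Nat.floor_le (mul_nonneg hκ hlog)
    linarith
  set F1 := (range J).filter fun i =>
    |((T^[i] x : ℤ) : ℝ)| ≤ X ∧ ¬ Desc T κ θ (T^[i] x) with hF1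
  set S' := (range J).filter fun i => |((T^[i] x : ℤ) : ℝ)| ≤ X ^ θ with hS'
  set F2 := (S' ×ˢ range (q + 1)).image fun p => p.1 - p.2 with hF2
  set F3 := (range (q + 1)).image fun k => J - k with hF3
  have hsub : ((range J).filter fun i => |((T^[i] x : ℤ) : ℝ)| ≤ X) ⊆ F1 ∪ (F2 ∪ F3) := by
    intro i hi
    rw [mem_filter, mem_range] at hi
    rw [mem_union, mem_union]
    by_cases hd : Desc T κ θ (T^[i] x)
    · right
      obtain ⟨k, hk, hk2⟩ := hd
      have hx1 : 1 ≤ |((T^[i] x : ℤ) : ℝ)| := by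
        by_contra hc
        push Not at hc
        have h0 : T^[i] x = 0 := by
          have : |T^[i] x| < 1 := by exact_mod_cast hc
          exact Int.abs_lt_one_iff.1 this
        rw [h0, Int.cast_zero, abs_zero, Real.zero_rpow hθ.ne'] at hk2
        exact absurd hk2 (not_lt.2 (abs_nonneg _))
      have hkq : k ≤ q := by
        apply Nat.le_floor
        refine hk.trans (mul_le_mul_of_nonneg_left (Real.log_le_log (by linarith) hi.2) hκ)
      have hval : |((T^[i + k] x : ℤ) : ℝ)| ≤ X ^ θ := by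
        rw [add_comm, Function.iterate_add_apply]
        exact hk2.le.trans (Real.rpow_le_rpow (abs_nonneg _) hi.2 hθ.le)
      by_cases hJ : i + k < J
      · left
        rw [hF2, mem_image]
        refine ⟨(i + k, k), ?_, by simp⟩
        rw [mem_product, mem_range]
        refine ⟨?_, by simp only; omega⟩
        rw [hS', mem_filter, mem_range]
        exact ⟨hJ, hval⟩
      · right
        rw [hF3, mem_image]
        exact ⟨J - i, mem_range.2 (by omega), by omega⟩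
    · left
      rw [hF1, mem_filter, mem_range]
      exact ⟨hi.1, hi.2, hd⟩
  have c1 : (F1.card : ℝ) ≤ B := by
    refine le_trans ?_ hB
    have h := card_filter_le hinj (fun y : ℤ => |(y : ℝ)| ≤ X ∧ ¬ Desc T κ θ y)
      ((finite_le X).subset fun y hy => hy.1)
    exact Nat.cast_le.2 h
  have c2 : F2.card ≤ S'.card * (q + 1) := by
    refine card_image_le.trans ?_
    rw [card_product, card_range]
  have c3 : F3.card ≤ q + 1 := by
    refine card_image_le.trans ?_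
    rw [card_range]
  have hS'A : S'.card = A T x J (X ^ θ) := rfl
  have h1 : A T x J X ≤ F1.card + (F2.card + F3.card) := by
    unfold A
    exact (card_le_card hsub).trans ((card_union_le _ _).trans
      (Nat.add_le_add_left (card_union_le _ _) _))
  have h2 : (A T x J X : ℝ) ≤ F1.card + ((A T x J (X ^ θ) : ℝ) * (q + 1 : ℕ) + (q + 1 : ℕ)) := by
    have h3 : A T x J X ≤ F1.card + (A T x J (X ^ θ) * (q + 1) + (q + 1)) := by
      rw [← hS'A]
      omega
    exact_mod_cast h3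
  have h4 : (A T x J (X ^ θ) : ℝ) * (q + 1 : ℕ) + (q + 1 : ℕ) ≤
      (κ * Real.log X + 1) * ((A T x J (X ^ θ) : ℝ) + 1) := by
    have : (0 : ℝ) ≤ (A T x J (X ^ θ) : ℝ) + 1 := by positivity
    nlinarith
  linarith

end

/-- for large `X` the logarithm is small -/
theorem log_small {κ a : ℝ} (ha : 0 < a) :
    ∃ X₀ : ℝ, 1 ≤ X₀ ∧ ∀ X : ℝ, X₀ ≤ X → κ * Real.log X + 1 ≤ X ^ a / 2 := by
  have h1 : Tendsto (fun X : ℝ => (κ * Real.log X + 1) / X ^ a) atTop (𝓝 0) := by
    have h2 : Tendsto (fun X : ℝ => Real.log X / X ^ a) atTop (𝓝 0) :=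
      (isLittleO_log_rpow_atTop ha).tendsto_div_nhds_zero
    have h3 : Tendsto (fun X : ℝ => 1 / X ^ a) atTop (𝓝 0) := by
      refine (tendsto_rpow_atTop ha).inv_tendsto_atTop.congr fun X => ?_
      rw [Pi.inv_apply, one_div]
    have h4 := (h2.const_mul κ).add h3
    rw [mul_zero, add_zero] at h4
    refine h4.congr fun X => ?_
    ring
  have h5 := (h1.eventually (gt_mem_nhds (show (0 : ℝ) < 1 / 2 by norm_num))).and
    (eventually_ge_atTop (1 : ℝ))
  obtain ⟨X₀, hX₀⟩ := eventually_atTop.1 h5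
  refine ⟨max X₀ 1, le_max_right _ _, fun X hX => ?_⟩
  obtain ⟨h6, h7⟩ := hX₀ X ((le_max_left _ _).trans hX)
  have h8 : 0 < X ^ a := Real.rpow_pos_of_pos (by linarith) a
  rw [div_lt_iff₀ h8] at h6
  linarith

/-- **Every trajectory is thin.** -/
theorem count {T : ℤ → ℤ} {κ θ E E' C : ℝ} (hκ : 0 ≤ κ) (hθ : 0 < θ) (hθ1 : θ < 1) (hE : E ≤ E')
    (hE' : 0 < E')
    (h : ∀ X : ℝ, 1 ≤ X → ({y : ℤ | |(y : ℝ)| ≤ X ∧ ¬ Desc T κ θ y}.ncard : ℝ) ≤ C * X ^ E) :
    ∃ M : ℝ, 0 < M ∧ ∀ (x : ℤ) (J : ℕ), (∀ a b, a < b → b < J → T^[a] x ≠ T^[b] x) →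
      ∀ X : ℝ, 1 ≤ X → (A T x J X : ℝ) ≤ M * X ^ E' := by
  have ha : 0 < (1 - θ) * E' := mul_pos (by linarith) hE'
  obtain ⟨X₀, hX₀, hlog⟩ := log_small (κ := κ) ha
  set C₁ : ℝ := |C| + 1 + 3 * X₀ with hC₁
  have hC₁0 : 0 < C₁ := by
    have := abs_nonneg C
    linarith
  refine ⟨2 * C₁, by linarith, fun x J hinj X hX => ?_⟩
  -- the improvement step
  have himp : ∀ M : ℝ, 0 ≤ M → (∀ Y : ℝ, 1 ≤ Y → (A T x J Y : ℝ) ≤ M * Y ^ E') →
      ∀ Y : ℝ, 1 ≤ Y → (A T x J Y : ℝ) ≤ (C₁ + M / 2) * Y ^ E' := by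
    intro M hM hA Y hY
    have hY0 : 0 < Y := by linarith
    have hYE : 1 ≤ Y ^ E' := Real.one_le_rpow hY hE'.le
    rcases lt_or_ge Y X₀ with hlt | hge
    · have h1 := A_le hinj hY
      have h2 : 3 * Y ≤ C₁ := by
        have := abs_nonneg C
        linarith
      have h3 : 0 ≤ M / 2 * Y ^ E' := by positivity
      nlinarith
    · have h1 := A_step hκ hθ hinj hY (h Y hY)
      have h2 := hA (Y ^ θ) (Real.one_le_rpow hY hθ.le)
      rw [← Real.rpow_mul hY0.le] at h2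
      have h3 := hlog Y hge
      have h4 : C * Y ^ E ≤ |C| * Y ^ E' :=
        calc C * Y ^ E ≤ |C| * Y ^ E := mul_le_mul_of_nonneg_right (le_abs_self C)
              (Real.rpow_nonneg hY0.le _)
          _ ≤ |C| * Y ^ E' := mul_le_mul_of_nonneg_left
              (Real.rpow_le_rpow_of_exponent_le hY hE) (abs_nonneg C)
      have h5 : Y ^ ((1 - θ) * E') * Y ^ (θ * E') = Y ^ E' := by
        rw [← Real.rpow_add hY0]
        congr 1
        ring
      have h6 : Y ^ ((1 - θ) * E') ≤ Y ^ E' := by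
        apply Real.rpow_le_rpow_of_exponent_le hY
        nlinarith
      have h7 : 0 < Y ^ (θ * E') := Real.rpow_pos_of_pos hY0 _
      have h8 : 0 ≤ M * Y ^ (θ * E') + 1 := by positivity
      have hlog0 : 0 ≤ κ * Real.log Y + 1 := by
        have := mul_nonneg hκ (Real.log_nonneg hY)
        linarith
      calc (A T x J Y : ℝ) ≤ C * Y ^ E + (κ * Real.log Y + 1) * ((A T x J (Y ^ θ) : ℝ) + 1) := h1
        _ ≤ |C| * Y ^ E' + (κ * Real.log Y + 1) * (M * Y ^ (θ * E') + 1) := by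
            apply add_le_add h4
            exact mul_le_mul_of_nonneg_left (by linarith) hlog0
        _ ≤ |C| * Y ^ E' + Y ^ ((1 - θ) * E') / 2 * (M * Y ^ (θ * E') + 1) := by
            gcongr
        _ = |C| * Y ^ E' + (M / 2) * (Y ^ ((1 - θ) * E') * Y ^ (θ * E')) +
              Y ^ ((1 - θ) * E') / 2 := by ring
        _ ≤ |C| * Y ^ E' + (M / 2) * Y ^ E' + Y ^ E' := by
            rw [h5]
            have : 0 < Y ^ E' := by linarith
            linarith
        _ ≤ (C₁ + M / 2) * Y ^ E' := by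
            rw [hC₁]
            have : 0 ≤ 3 * X₀ * Y ^ E' := by positivity
            nlinarith
  -- iteration
  have hit : ∀ t : ℕ, ∀ Y : ℝ, 1 ≤ Y →
      (A T x J Y : ℝ) ≤ (2 * C₁ + (J : ℝ) / 2 ^ t) * Y ^ E' := by
    intro t
    induction t with
    | zero =>
      intro Y hY
      have h1 : (A T x J Y : ℝ) ≤ J := by exact_mod_cast A_le_J (T := T) (x := x) (J := J) Y
      have h2 : 1 ≤ Y ^ E' := Real.one_le_rpow hY hE'.le
      have h3 : (0 : ℝ) ≤ J := Nat.cast_nonneg J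
      rw [pow_zero, div_one]
      nlinarith
    | succ t ih =>
      intro Y hY
      have h1 := himp _ (by positivity) ih Y hY
      refine h1.trans (le_of_eq ?_)
      rw [pow_succ]
      ring
  have hlim : Tendsto (fun t : ℕ => (2 * C₁ + (J : ℝ) / 2 ^ t) * X ^ E') atTop
      (𝓝 ((2 * C₁ + 0) * X ^ E')) := by
    apply Tendsto.mul_const
    apply Tendsto.const_add
    have := (tendsto_pow_atTop_nhds_zero_of_lt_one (r := (1 / 2 : ℝ)) (by norm_num)
      (by norm_num)).const_mul (J : ℝ)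
    rw [mul_zero] at this
    refine this.congr fun t => ?_
    rw [one_div, inv_pow, div_eq_mul_inv]
  rw [add_zero] at hlim
  exact ge_of_tendsto' hlim fun t => hit t X hX

end Pool.Agent.Lib.MP_0a5adf_nt.H57.Count
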