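import Pool.Agent.Lib.MP_0a5adf_nt.H57.Count

/-!
Reciprocals of the distinct terms of one trajectory (helper57).
-/

set_option autoImplicit false

namespace Pool.Agent.Lib.MP_0a5adf_nt.H57.Count

open Finset Filter Topology

/-- the sum of the reciprocals of distinct terms `≥ m` -/
theorem recip {T : ℤ → ℤ} {E M : ℝ} (hE1 : E < 1) (hM : 0 < M)
    (hA : ∀ (x : ℤ) (J : ℕ), (∀ a b, a < b → b < J → T^[a] x ≠ T^[b] x) →
      ∀ X : ℝ, 1 ≤ X → (A T x J X : ℝ) ≤ M * X ^ E) :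
    ∃ M' : ℝ, 0 < M' ∧ ∀ (x : ℤ) (J : ℕ), (∀ a b, a < b → b < J → T^[a] x ≠ T^[b] x) →
      ∀ m : ℝ, 1 ≤ m → (∀ i < J, m ≤ |((T^[i] x : ℤ) : ℝ)|) →
        ∑ i ∈ range J, 1 / |((T^[i] x : ℤ) : ℝ)| ≤ M' * m ^ (E - 1) := by
  classical
  set g : ℝ := (2 : ℝ) ^ (E - 1) with hg
  have hg0 : 0 < g := Real.rpow_pos_of_pos (by norm_num) _
  have hg1 : g < 1 := Real.rpow_lt_one_of_one_lt_of_neg (by norm_num) (by linarith)
  refine ⟨M * 2 ^ E * (1 - g)⁻¹, mul_pos (mul_pos hM (Real.rpow_pos_of_pos (by norm_num) _))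
    (inv_pos.2 (by linarith)), fun x J hinj m hm hx => ?_⟩
  have hm0 : 0 < m := by linarith
  have hr : ∀ i, ∃ r : ℕ, i < J → (2 : ℝ) ^ r * m ≤ |((T^[i] x : ℤ) : ℝ)| ∧
      |((T^[i] x : ℤ) : ℝ)| ≤ 2 ^ (r + 1) * m := by
    intro i
    by_cases hi : i < J
    · obtain ⟨r, h1, h2⟩ := exists_nat_pow_near (x := |((T^[i] x : ℤ) : ℝ)| / m) (y := 2)
        ((one_le_div hm0).2 (hx i hi)) (by norm_num)
      refine ⟨r, fun _ => ⟨?_, ?_⟩⟩
      · rwa [le_div_iff₀ hm0] at h1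
      · rw [div_lt_iff₀ hm0] at h2
        exact h2.le
    · exact ⟨0, fun h => absurd h hi⟩
  choose r hr using hr
  set R : ℕ := (range J).sup r + 1 with hR
  have h1 : ∀ i ∈ range J, 1 / |((T^[i] x : ℤ) : ℝ)| ≤
      ∑ s ∈ range R, if |((T^[i] x : ℤ) : ℝ)| ≤ 2 ^ (s + 1) * m then 1 / (2 ^ s * m) else 0 := by
    intro i hi
    obtain ⟨h2, h3⟩ := hr i (mem_range.1 hi)
    have h4 : r i ∈ range R := by
      rw [mem_range, hR]
      exact Nat.lt_succ_of_le (Finset.le_sup hi)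
    have h5 := Finset.single_le_sum (f := fun s : ℕ =>
      if |((T^[i] x : ℤ) : ℝ)| ≤ 2 ^ (s + 1) * m then 1 / ((2 : ℝ) ^ s * m) else 0)
      (fun s _ => by split_ifs <;> positivity) h4
    refine le_trans ?_ h5
    rw [if_pos h3]
    exact one_div_le_one_div_of_le (by positivity) h2
  have h2 : ∀ s : ℕ, (∑ i ∈ range J,
      if |((T^[i] x : ℤ) : ℝ)| ≤ 2 ^ (s + 1) * m then 1 / ((2 : ℝ) ^ s * m) else 0) ≤
      M * 2 ^ E * m ^ (E - 1) * g ^ s := by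
    intro s
    rw [← Finset.sum_filter, Finset.sum_const, nsmul_eq_mul]
    have h3 : (1 : ℝ) ≤ 2 ^ (s + 1) * m := by
      have : (1 : ℝ) ≤ 2 ^ (s + 1) := one_le_pow₀ (by norm_num)
      nlinarith
    have h4 := hA x J hinj (2 ^ (s + 1) * m) h3
    unfold A at h4
    have h5 : (0 : ℝ) < 2 ^ s * m := by positivity
    have h6 : ((2 : ℝ) ^ (s + 1) * m) ^ E * (1 / (2 ^ s * m)) = 2 ^ E * m ^ (E - 1) * g ^ s := by
      have e1 : ((2 : ℝ) ^ (s + 1) * m) ^ E = 2 ^ E * ((2 : ℝ) ^ E) ^ s * m ^ E := by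
        rw [Real.mul_rpow (by positivity) hm0.le, ← Real.rpow_natCast 2 (s + 1),
          ← Real.rpow_mul (by norm_num), ← Real.rpow_natCast ((2 : ℝ) ^ E) s,
          ← Real.rpow_mul (by norm_num), ← Real.rpow_add (by norm_num)]
        congr 2
        push_cast
        ring
      have e2 : m ^ (E - 1) = m ^ E / m := by rw [Real.rpow_sub hm0, Real.rpow_one]
      have e3 : g = 2 ^ E / 2 := by rw [hg, Real.rpow_sub (by norm_num), Real.rpow_one]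
      rw [e1, e2, e3, div_pow]
      field_simp
    calc (((range J).filter fun i => |((T^[i] x : ℤ) : ℝ)| ≤ 2 ^ (s + 1) * m).card : ℝ) *
          (1 / (2 ^ s * m)) ≤ (M * (2 ^ (s + 1) * m) ^ E) * (1 / (2 ^ s * m)) :=
          mul_le_mul_of_nonneg_right h4 (by positivity)
      _ = M * (((2 : ℝ) ^ (s + 1) * m) ^ E * (1 / (2 ^ s * m))) := by ring
      _ = M * 2 ^ E * m ^ (E - 1) * g ^ s := by rw [h6]; ring
  calc ∑ i ∈ range J, 1 / |((T^[i] x : ℤ) : ℝ)| ≤ ∑ i ∈ range J, ∑ s ∈ range R,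
        (if |((T^[i] x : ℤ) : ℝ)| ≤ 2 ^ (s + 1) * m then 1 / ((2 : ℝ) ^ s * m) else 0) :=
        Finset.sum_le_sum h1
    _ = ∑ s ∈ range R, ∑ i ∈ range J,
        (if |((T^[i] x : ℤ) : ℝ)| ≤ 2 ^ (s + 1) * m then 1 / ((2 : ℝ) ^ s * m) else 0) :=
        Finset.sum_comm
    _ ≤ ∑ s ∈ range R, M * 2 ^ E * m ^ (E - 1) * g ^ s := Finset.sum_le_sum fun s _ => h2 s
    _ = M * 2 ^ E * m ^ (E - 1) * ∑ s ∈ range R, g ^ s := by rw [Finset.mul_sum]
    _ ≤ M * 2 ^ E * m ^ (E - 1) * (1 - g)⁻¹ := by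
        refine mul_le_mul_of_nonneg_left ?_ (by positivity)
        have h3 := (summable_geometric_of_lt_one hg0.le hg1).sum_le_tsum (range R)
          (fun s _ => pow_nonneg hg0.le s)
        rwa [tsum_geometric_of_lt_one hg0.le hg1] at h3
    _ = M * 2 ^ E * (1 - g)⁻¹ * m ^ (E - 1) := by ring

end Pool.Agent.Lib.MP_0a5adf_nt.H57.Count
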