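import Pool.Agent.Lib.MP_0a5adf_nt.H57.Recip
import Pool.Agent.Lib.MP_0a5adf_nt.EXR.H89.Full

/-!
Every trajectory of the 3x+1 map (on the integers) has at most `C X ^ 0.9404` distinct terms up to
`X` (helper57), and the sum of the reciprocals of its terms `≥ m` is `O(m ^ (-0.0596))`.
-/

set_option autoImplicit false

namespace Pool.Agent.Lib.MP_0a5adf_nt.H57.Count

open Finset Filter Topology
open Pool.Agent.Lib.MP_0a5adf_nt
open Pool.Agent.Lib.MP_0a5adf_nt.EXR (EE GoodG)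

theorem EE_small : EE 0.99999 (1 / 3) + 0.00001 ≤ 0.9404 := by
  obtain ⟨-, h⟩ := EXR.Full.EE_bounds
  have hL : 0 ≤ Real.logb 2 (1 + 6 * (9 : ℝ) ^ (1 / 3 : ℝ) + (81 : ℝ) ^ (1 / 3 : ℝ)) := by
    apply Real.logb_nonneg (by norm_num)
    have h1 : 0 < (9 : ℝ) ^ (1 / 3 : ℝ) := by positivity
    have h2 : 0 < (81 : ℝ) ^ (1 / 3 : ℝ) := by positivity
    linarith
  unfold EE at *
  set L := Real.logb 2 (1 + 6 * (9 : ℝ) ^ (1 / 3 : ℝ) + (81 : ℝ) ^ (1 / 3 : ℝ)) with hLdef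
  norm_num at *
  linarith

theorem desc_of_good {θ β : ℝ} (hθ : θ ≤ 1) {x : ℤ} (h : GoodG θ β x) :
    Desc EXP.T (4 / 3 / Real.log 2) θ x := by
  obtain ⟨k, hk, hk1, -⟩ := h
  refine ⟨k, hk.trans ?_, hk1⟩
  have hlog : 0 ≤ Real.log |(x : ℝ)| := by
    rcases eq_or_ne x 0 with rfl | h0
    · simp
    · apply Real.log_nonneg
      have := Int.one_le_abs h0
      exact_mod_cast this
  have h2 : 0 < Real.log 2 := Real.log_pos (by norm_num)
  rw [Real.logb, ← mul_div_assoc, div_mul_eq_mul_div]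
  apply div_le_div_of_nonneg_right _ h2.le
  nlinarith

/-- the thinness of the trajectories of the 3x+1 map -/
theorem thin : ∃ M : ℝ, 0 < M ∧ ∀ (x : ℤ) (J : ℕ),
    (∀ a b, a < b → b < J → EXP.T^[a] x ≠ EXP.T^[b] x) →
      ∀ X : ℝ, 1 ≤ X → (A EXP.T x J X : ℝ) ≤ M * X ^ (0.9404 : ℝ) := by
  obtain ⟨C, hC⟩ := EXR.Full.final_thm 0.99999 (1 / 3) 0.00001 (by norm_num) (by norm_num)
    (by norm_num) le_rfl (by norm_num)
  have h2 : 0 < Real.log 2 := Real.log_pos (by norm_num)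
  refine count (κ := 4 / 3 / Real.log 2) (θ := 0.99999) (E := EE 0.99999 (1 / 3) + 0.00001)
    (C := C) (by positivity) (by norm_num) (by norm_num) EE_small (by norm_num) ?_
  intro X hX
  refine le_trans ?_ (hC X hX)
  have hsub : {y : ℤ | |(y : ℝ)| ≤ X ∧ ¬ Desc EXP.T (4 / 3 / Real.log 2) 0.99999 y} ⊆
      {x : ℤ | |(x : ℝ)| ≤ X ∧
        ¬ GoodG 0.99999 (2 - EE 0.99999 (1 / 3) + 0.99999 / 5 + 0.00001) x} := by
    rintro y ⟨hy, hd⟩
    exact ⟨hy, fun hg => hd (desc_of_good (by norm_num) hg)⟩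
  exact_mod_cast Set.ncard_le_ncard hsub ((finite_le X).subset fun y hy => hy.1)

theorem recips : ∃ M : ℝ, 0 < M ∧ ∀ (x : ℤ) (J : ℕ),
    (∀ a b, a < b → b < J → EXP.T^[a] x ≠ EXP.T^[b] x) →
      ∀ m : ℝ, 1 ≤ m → (∀ i < J, m ≤ |((EXP.T^[i] x : ℤ) : ℝ)|) →
        ∑ i ∈ range J, 1 / |((EXP.T^[i] x : ℤ) : ℝ)| ≤ M * m ^ (-0.0596 : ℝ) := by
  obtain ⟨M, hM, h⟩ := thin
  obtain ⟨M', hM', h'⟩ := recip (by norm_num) hM h
  refine ⟨M', hM', fun x J hinj m hm hx => (h' x J hinj m hm hx).trans (le_of_eq ?_)⟩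
  norm_num

end Pool.Agent.Lib.MP_0a5adf_nt.H57.Count
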